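import Pool.Agent.H681R3.EH.Stm

set_option autoImplicit false

noncomputable section

open MvPolynomial

namespace H681EH

theorem BAS_choose (d : ℕ) (hd : 1 ≤ d) (t : ℕ) :
    ∑ k ∈ Finset.Icc 1 t, (d + k - 1).choose d ≤ (d + t).choose (d + 1) := by
  induction t with
  | zero => simp
  | succ t ih =>
    rw [Finset.sum_Icc_succ_top (by omega)]
    have h1 : (d + (t + 1)).choose (d + 1) = (d + t).choose d + (d + t).choose (d + 1) :=
      Nat.choose_succ_succ _ _
    have h2 : d + (t + 1) - 1 = d + t := by omega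
    rw [h1, h2]
    omega

theorem BAS (hLM : S_LM) (hORD : S_ORD) : S_BAS := by
  classical
  intro d hd S t
  obtain ⟨hO0, hOm, -, -, -⟩ := hORD
  let P : ℕ → (Fin d →₀ ℕ) → Prop := fun k a => ∃ f : Poly d, f ≠ 0 ∧ f.support ⊆ S ∧ Ord f k ∧
    MonomialOrder.lex.degree f = a
  have hP0 : ∀ a ∈ S, P 0 a := by
    intro a ha
    have h1 : (monomial a (1 : ZMod 2)) ≠ 0 := by
      rw [Ne, monomial_eq_zero]
      exact one_ne_zero
    refine ⟨monomial a 1, h1, ?_, hO0 d _, ?_⟩
    · rw [support_monomial, if_neg one_ne_zero]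
      exact Finset.singleton_subset_iff.mpr ha
    · rw [MonomialOrder.degree_monomial, if_neg one_ne_zero]
  have hPm : ∀ a k l, l ≤ k → P k a → P l a := by
    rintro a k l hl ⟨f, h1, h2, h3, h4⟩
    exact ⟨f, h1, h2, hOm d f k l hl h3, h4⟩
  let kk : (Fin d →₀ ℕ) → ℕ := fun a => Nat.findGreatest (fun k => P k a) t
  have hkk : ∀ a ∈ S, P (kk a) a := fun a ha =>
    Nat.findGreatest_spec (P := fun k => P k a) (Nat.zero_le t) (hP0 a ha)
  -- the sum of the orders
  have hsum : ∀ a, kk a = ∑ k ∈ Finset.Icc 1 t, if k ≤ kk a then 1 else 0 := by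
    intro a
    rw [← Finset.card_filter]
    have h1 : kk a ≤ t := Nat.findGreatest_le t
    have h2 : (Finset.Icc 1 t).filter (fun k => k ≤ kk a) = Finset.Icc 1 (kk a) := by
      ext k
      simp only [Finset.mem_filter, Finset.mem_Icc]
      omega
    rw [h2, Nat.card_Icc, Nat.add_sub_cancel]
  have hle : ∀ k ∈ Finset.Icc 1 t, S.card ≤
      (∑ a ∈ S, if k ≤ kk a then 1 else 0) + (d + k - 1).choose d := by
    intro k hk
    obtain ⟨L, hLS, hL, hLf⟩ := hLM d hd S k
    refine hL.trans (Nat.add_le_add_right ?_ _)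
    rw [← Finset.card_filter]
    refine Finset.card_le_card fun a ha => Finset.mem_filter.mpr ⟨hLS ha, ?_⟩
    exact Nat.le_findGreatest (Finset.mem_Icc.mp hk).2 (hLf a ha)
  have htot : t * S.card ≤ (∑ a ∈ S, kk a) + (d + t).choose (d + 1) := by
    have h1 : ∑ _k ∈ Finset.Icc 1 t, S.card = t * S.card := by
      rw [Finset.sum_const, Nat.card_Icc, Nat.add_sub_cancel, smul_eq_mul]
    have h2 : ∑ a ∈ S, kk a = ∑ k ∈ Finset.Icc 1 t, ∑ a ∈ S, if k ≤ kk a then 1 else 0 := by
      rw [Finset.sum_comm]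
      exact Finset.sum_congr rfl fun a _ => hsum a
    rw [← h1, h2]
    refine (Finset.sum_le_sum hle).trans ?_
    rw [Finset.sum_add_distrib]
    exact Nat.add_le_add_left (BAS_choose d hd t) _
  have hch : ∀ a, ∃ f : Poly d, a ∈ S → (f ≠ 0 ∧ f.support ⊆ S ∧ Ord f (kk a) ∧
      MonomialOrder.lex.degree f = a) := by
    intro a
    by_cases ha : a ∈ S
    · obtain ⟨f, hf⟩ := hkk a ha
      exact ⟨f, fun _ => hf⟩
    · exact ⟨0, fun h => absurd h ha⟩
  choose f hf using hch
  exact ⟨f, kk, hf, htot⟩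

end H681EH
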