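import Pool.Agent.H681R3.EH.Stm

set_option autoImplicit false

noncomputable section

open MvPolynomial MeasureTheory Filter Topology
open scoped BigOperators Pointwise ENNReal Matrix

namespace H681EH

/-- CORE: the combinatorial theorem. -/
theorem CORE (hBAS : S_BAS) (hSUP : S_SUP) (hORD : S_ORD) (hFROB : S_FROB) : S_CORE := by
  intro d hd S t r j e hS hj hr hjr C hC hSC
  obtain ⟨-, hmono, -, hpow, hprod⟩ := hORD
  obtain ⟨f, k, hf, hk⟩ := hBAS d hd S t
  obtain ⟨-, hSpow, hSprod⟩ := hSUP d C hC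
  set P : Poly d := ∏ a ∈ S, f a with hPdef
  have hrk : r ≤ ∑ a ∈ S, k a := by omega
  have hordP : Ord P (∑ a ∈ S, k a) := hprod d _ S f k (fun a ha => (hf a ha).2.2.1)
  have hordPj : Ord (P ^ j) (j * ∑ a ∈ S, k a) := hpow d P _ j hordP
  have hord : Ord (P ^ j) (d * (2 ^ e - 1) + 1) := by
    refine hmono d (P ^ j) _ _ ?_ hordPj
    have h1 : j * r ≤ j * ∑ a ∈ S, k a := Nat.mul_le_mul_left _ hrk
    omega
  have hPne : P ≠ 0 := by
    rw [hPdef, Finset.prod_ne_zero_iff]
    exact fun a ha => (hf a ha).1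
  have hPjne : P ^ j ≠ 0 := pow_ne_zero _ hPne
  have hdegP : MonomialOrder.lex.degree P = ∑ a ∈ S, a := by
    rw [hPdef, MonomialOrder.degree_prod (fun a ha => (hf a ha).1)]
    exact Finset.sum_congr rfl (fun a ha => (hf a ha).2.2.2)
  have hdegPj : MonomialOrder.lex.degree (P ^ j) = j • ∑ a ∈ S, a := by
    rw [MonomialOrder.degree_pow, hdegP]
  have hmem : (j • ∑ a ∈ S, a) ∈ (P ^ j).support := by
    rw [← hdegPj]
    exact MonomialOrder.degree_mem_support hPjne
  obtain ⟨b, hb, hbne, hbmod⟩ := hFROB d e (P ^ j) hord _ hmem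
  have hsuppP : Supp C S.card P := by
    refine hSprod _ S f hS ?_
    intro a ha b hb
    have : b ∈ S := (hf a ha).2.1 hb
    simpa using hSC b this
  have hsuppPj : Supp C (j * S.card) (P ^ j) := hSpow P _ j hj hsuppP
  exact ⟨b, hbne, hbmod, hsuppPj b hb⟩

end H681EH
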