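import Pool.Agent.H681R3.EH.Stm

set_option autoImplicit false

noncomputable section

open MvPolynomial MeasureTheory Filter Topology
open scoped BigOperators Pointwise ENNReal Matrix

namespace H681EH

theorem COREZ (hCORE : S_CORE) : S_COREZ := by
  classical
  intro d hd S t r j e hS hj h1 h2 C hC hSC
  let c : Fin d → ℕ := fun i => ∑ a ∈ S, (a i).natAbs
  have hc : ∀ a ∈ S, ∀ i, 0 ≤ a i + (c i : ℤ) := by
    intro a ha i
    have h3 : (a i).natAbs ≤ c i :=
      Finset.single_le_sum (f := fun a : Fin d → ℤ => (a i).natAbs) (fun _ _ => Nat.zero_le _) ha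
    have h4 : -(a i) ≤ ((a i).natAbs : ℤ) := by
      rw [Int.natCast_natAbs]
      exact neg_le_abs _
    have h5 : ((a i).natAbs : ℤ) ≤ (c i : ℤ) := by exact_mod_cast h3
    omega
  let φ : (Fin d → ℤ) → (Fin d →₀ ℕ) := fun a =>
    Finsupp.equivFunOnFinite.symm (fun i => (a i + (c i : ℤ)).toNat)
  have hφ : ∀ a ∈ S, ∀ i, ((φ a i : ℕ) : ℤ) = a i + (c i : ℤ) := by
    intro a ha i
    simp only [φ, Finsupp.equivFunOnFinite_symm_apply_apply]
    exact Int.toNat_of_nonneg (hc a ha i)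
  have hinj : Set.InjOn φ (S : Set (Fin d → ℤ)) := by
    intro a ha b hb hab
    funext i
    have h3 := hφ a ha i
    have h4 := hφ b hb i
    rw [hab] at h3
    omega
  let S' : Finset (Fin d →₀ ℕ) := S.image φ
  have hcard : S'.card = S.card := Finset.card_image_of_injOn hinj
  have hsum : ∑ a ∈ S', a = ∑ a ∈ S, φ a := Finset.sum_image hinj
  let cR : Fin d → ℝ := fun i => (c i : ℝ)
  have hC' : Convex ℝ (C + {cR}) := hC.add (convex_singleton cR)
  have hS' : S'.Nonempty := hS.image φ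
  have hS'C : ∀ a ∈ S', rN a ∈ C + {cR} := by
    intro a ha
    obtain ⟨x, hx, rfl⟩ := Finset.mem_image.mp ha
    refine Set.mem_add.mpr ⟨rZ x, hSC x hx, cR, rfl, ?_⟩
    funext i
    have h3 := hφ x hx i
    have h4 : ((φ x i : ℕ) : ℝ) = (x i : ℝ) + (c i : ℝ) := by exact_mod_cast h3
    simp only [Pi.add_apply, rZ, rN, cR]
    exact h4.symm
  obtain ⟨b, hb1, hb2, hb3⟩ := hCORE d hd S' t r j e hS' hj (by rw [hcard]; exact h1) h2
    (C + {cR}) hC' hS'C
  have hdvd : ∀ i, ∃ w : ℤ, (b i : ℤ) = ((j • ∑ a ∈ S', a) i : ℕ) + 2 ^ e * w := by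
    intro i
    have h3 := (Nat.modEq_iff_dvd.mp (hb2 i).symm)
    obtain ⟨w, hw⟩ := h3
    refine ⟨w, ?_⟩
    have h6 : (((2 ^ e : ℕ)) : ℤ) = 2 ^ e := by push_cast; rfl
    rw [h6] at hw
    linarith
  choose v hv using hdvd
  have hsi : ∀ i, (((j • ∑ a ∈ S', a) i : ℕ) : ℤ) =
      (j : ℤ) * (∑ a ∈ S, a i) + (j : ℤ) * (S.card : ℤ) * (c i : ℤ) := by
    intro i
    rw [hsum]
    simp only [Finsupp.smul_apply, Finsupp.finsetSum_apply, smul_eq_mul]
    push_cast
    rw [Finset.sum_congr rfl (fun a ha => hφ a ha i), Finset.sum_add_distrib]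
    simp only [Finset.sum_const, nsmul_eq_mul]
    ring
  refine ⟨v, ?_, ?_⟩
  · intro hv0
    apply hb1
    ext i
    have h3 := hv i
    rw [hv0] at h3
    simp only [Pi.zero_apply, mul_zero, add_zero] at h3
    exact_mod_cast h3
  · obtain ⟨y, hy, hyb⟩ := Set.mem_smul_set.mp hb3
    obtain ⟨x, hx, z, hz, hxz⟩ := Set.mem_add.mp hy
    rw [Set.mem_singleton_iff] at hz
    subst hz
    refine Set.mem_smul_set.mpr ⟨x, hx, ?_⟩
    funext i
    have h3 := congrFun hyb i
    rw [← hxz, hcard] at h3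
    simp only [Pi.smul_apply, Pi.add_apply, smul_eq_mul, rN, cR] at h3
    have h4 := hv i
    rw [hsi i] at h4
    have h5 : ((b i : ℕ) : ℝ) = (j : ℝ) * (∑ a ∈ S, (a i : ℝ)) + (j : ℝ) * (S.card : ℝ) * (c i : ℝ)
        + 2 ^ e * (v i : ℝ) := by exact_mod_cast h4
    simp only [Pi.smul_apply, smul_eq_mul, rZ, Pi.add_apply, Finset.sum_apply]
    push_cast
    push_cast at h3
    rw [h5] at h3
    linarith

end H681EH
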