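import Pool.Agent.H681R3.EH.Stm

set_option autoImplicit false

noncomputable section

open MvPolynomial MeasureTheory Filter Topology
open scoped BigOperators Pointwise ENNReal Matrix

namespace H681EH

namespace COUNTX

theorem mem_span_iff {d : ℕ} (y : Fin d → ℝ) :
    y ∈ Submodule.span ℤ (Set.range (Pi.basisFun ℝ (Fin d))) ↔ ∃ a : Fin d → ℤ, y = rZ a := by
  rw [Module.Basis.mem_span_iff_repr_mem]
  constructor
  · intro h
    choose a ha using h
    refine ⟨a, funext fun i => ?_⟩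
    have := ha i
    simpa [rZ] using this.symm
  · rintro ⟨a, rfl⟩ i
    exact ⟨a i, by simp [rZ]⟩

theorem rZ_inj {d : ℕ} : Function.Injective (rZ (d := d)) := by
  intro a b h
  funext i
  have := congrFun h i
  simpa [rZ] using this

theorem fin {d : ℕ} {K : Set (Fin d → ℝ)} (hK : Bornology.IsBounded K) (m : ℕ) :
    {a : Fin d → ℤ | rZ a ∈ (m : ℝ) • K}.Finite := by
  obtain ⟨R, hR⟩ := hK.exists_norm_le
  refine Set.Finite.subset (Set.Finite.pi' (fun _ : Fin d => Set.finite_Icc (-⌈(m : ℝ) * R⌉)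
    ⌈(m : ℝ) * R⌉)) ?_
  intro a ha i
  obtain ⟨x, hx, hxa⟩ := ha
  have h1 : |(a i : ℝ)| ≤ m * R := by
    have h2 : (a i : ℝ) = m * x i := by
      have := congrFun hxa i
      simp only [rZ] at this
      rw [← this]; rfl
    rw [h2, abs_mul, Nat.abs_cast]
    exact mul_le_mul_of_nonneg_left ((norm_le_pi_norm x i).trans (hR x hx)) (Nat.cast_nonneg _)
  have h3 := abs_le.mp (h1.trans (Int.le_ceil _))
  constructor
  · exact_mod_cast h3.1
  · exact_mod_cast h3.2

theorem tsum_eq {d : ℕ} {K : Set (Fin d → ℝ)} {m : ℕ} (hm : 1 ≤ m) (S : Finset (Fin d → ℤ))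
    (hS : ∀ a, a ∈ S ↔ rZ a ∈ (m : ℝ) • K) (F : (Fin d → ℝ) → ℝ) :
    (∑' x : ↑(K ∩ (m : ℝ)⁻¹ • (Submodule.span ℤ (Set.range (Pi.basisFun ℝ (Fin d))) :
      Set (Fin d → ℝ))), F x) = ∑ a ∈ S, F ((m : ℝ)⁻¹ • rZ a) := by
  have hm0 : (m : ℝ) ≠ 0 := by positivity
  have hmem : ∀ a : S, (m : ℝ)⁻¹ • rZ a.1 ∈ (K ∩ (m : ℝ)⁻¹ •
      (Submodule.span ℤ (Set.range (Pi.basisFun ℝ (Fin d))) : Set (Fin d → ℝ))) := by
    intro a
    refine ⟨?_, ⟨rZ a.1, (mem_span_iff _).mpr ⟨a.1, rfl⟩, rfl⟩⟩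
    obtain ⟨x, hx, hxa⟩ := (hS a.1).mp a.2
    simp only at hxa
    rw [← hxa, smul_smul, inv_mul_cancel₀ hm0, one_smul]
    exact hx
  let e : S ≃ ↑(K ∩ (m : ℝ)⁻¹ • (Submodule.span ℤ (Set.range (Pi.basisFun ℝ (Fin d))) :
      Set (Fin d → ℝ))) := Equiv.ofBijective (fun a => ⟨(m : ℝ)⁻¹ • rZ a.1, hmem a⟩) (by
    constructor
    · intro a b h
      have h1 : (m : ℝ)⁻¹ • rZ a.1 = (m : ℝ)⁻¹ • rZ b.1 := congrArg Subtype.val h
      have h2 := smul_right_injective _ (inv_ne_zero hm0) h1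
      exact Subtype.ext (rZ_inj h2)
    · rintro ⟨x, hx, ⟨y, hy, hyx⟩⟩
      obtain ⟨a, rfl⟩ := (mem_span_iff y).mp hy
      simp only at hyx
      refine ⟨⟨a, (hS a).mpr ⟨x, hx, ?_⟩⟩, ?_⟩
      · simp only
        rw [← hyx, smul_smul, mul_inv_cancel₀ hm0, one_smul]
      · exact Subtype.ext hyx)
  rw [← e.tsum_eq]
  exact Finset.tsum_subtype S (fun a => F ((m : ℝ)⁻¹ • rZ a))

end COUNTX

open COUNTX in
theorem COUNT : S_COUNT := by
  intro d _ K hK hKc _
  have hb := hKc.isBounded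
  have hfr : volume (frontier K) = 0 := hK.addHaar_frontier volume
  refine ⟨fun m => (fin hb m).toFinset, ?_, ?_, ?_⟩
  · intro m _ a
    simp
  · have h := tendsto_tsum_div_pow_atTop_integral K (fun _ => (1 : ℝ)) continuous_const hb
      hKc.measurableSet hfr
    have h2 : (∫ _ in K, (1 : ℝ)) = (volume K).toReal := by
      rw [setIntegral_const, smul_eq_mul, mul_one]; rfl
    rw [h2] at h
    refine h.congr' ?_
    filter_upwards [eventually_ge_atTop 1] with m hm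
    have h5 := tsum_eq hm (fin hb m).toFinset (K := K)
      (fun a => by rw [Set.Finite.mem_toFinset]; rfl) (fun _ => (1 : ℝ))
    rw [h5, Fintype.card_fin]
    simp
  · intro i
    have h := tendsto_tsum_div_pow_atTop_integral K (fun x => x i) (continuous_apply i) hb
      hKc.measurableSet hfr
    refine h.congr' ?_
    filter_upwards [eventually_ge_atTop 1] with m hm
    have h5 := tsum_eq hm (fin hb m).toFinset (K := K)
      (fun a => by rw [Set.Finite.mem_toFinset]; rfl) (fun x => x i)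
    rw [h5, Fintype.card_fin]
    have hm0 : (m : ℝ) ≠ 0 := by positivity
    have h3 : ∑ a ∈ (fin hb m).toFinset, ((m : ℝ)⁻¹ • rZ a) i =
        (m : ℝ)⁻¹ * ∑ a ∈ (fin hb m).toFinset, (a i : ℝ) := by
      rw [Finset.mul_sum]; rfl
    rw [h3, pow_succ]
    field_simp

end H681EH
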