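import Pool.Agent.H681R3.EH.Stm

set_option autoImplicit false

noncomputable section

open MvPolynomial MeasureTheory Filter Topology
open scoped BigOperators Pointwise ENNReal Matrix

namespace H681EH

theorem EHZ (hcore : S_COREZ) (hcount : S_COUNT) (hlim : S_LIM) (hgeo : S_GEO) : S_EHZ := by
  intro d hd K hconv hcomp h0 hcent hlat
  by_contra hV
  push Not at hV
  obtain ⟨S, hS, hcard, hmom⟩ := hcount d hd K hconv hcomp ⟨0, h0⟩
  obtain ⟨δ, hδ, hev⟩ := hlim d hd _ hV (fun m => (S m).card) hcard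
  obtain ⟨ε, hε, hgeo'⟩ := hgeo d K hconv h0 (δ / 2) (by positivity)
  have hVpos : 0 < (volume K).toReal := lt_of_le_of_lt (by positivity) hV
  have hκ : ∀ i, Tendsto (fun m : ℕ => (∑ a ∈ S m, (a i : ℝ)) / ((m : ℝ) * (S m).card))
      atTop (𝓝 0) := by
    intro i
    have h1 := (hmom i).div hcard hVpos.ne'
    rw [hcent i, zero_div] at h1
    refine h1.congr' ?_
    filter_upwards [eventually_ge_atTop 1] with m hm
    have hm0 : (m : ℝ) ≠ 0 := by positivity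
    simp only [Pi.div_apply]
    have hmd : (m : ℝ) ^ d ≠ 0 := pow_ne_zero d hm0
    have halg : ∀ A B : ℝ, A / (m : ℝ) ^ (d + 1) / (B / (m : ℝ) ^ d) = A / ((m : ℝ) * B) := by
      intro A B
      rw [div_div_div_eq, pow_succ, mul_assoc, mul_comm A, mul_div_mul_left _ _ hmd]
    exact halg _ _
  have hκ' : ∀ᶠ m : ℕ in atTop,
      ‖fun i => (∑ a ∈ S m, (a i : ℝ)) / ((m : ℝ) * (S m).card)‖ ≤ ε := by
    have : ∀ᶠ m : ℕ in atTop, ∀ i, ‖(∑ a ∈ S m, (a i : ℝ)) / ((m : ℝ) * (S m).card)‖ ≤ ε := by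
      rw [eventually_all]
      intro i
      have := (hκ i).norm
      rw [norm_zero] at this
      exact (this.eventually (gt_mem_nhds hε)).mono (fun m hm => le_of_lt hm)
    filter_upwards [this] with m hm
    exact (pi_norm_le_iff_of_nonneg hε.le).2 hm
  obtain ⟨m, ⟨hm1, hN1, t, r, htr, hr⟩, hκm⟩ := (hev.and hκ').exists
  set N := (S m).card with hNdef
  set κ : Fin d → ℝ := fun i => (∑ a ∈ S m, (a i : ℝ)) / ((m : ℝ) * N) with hκdef
  have hmR : (1 : ℝ) ≤ m := by exact_mod_cast hm1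
  have hNR : (1 : ℝ) ≤ N := by exact_mod_cast hN1
  have hdR : (1 : ℝ) ≤ d := by exact_mod_cast hd
  have hrR : (0 : ℝ) < r := by
    refine lt_of_lt_of_le ?_ hr
    push_cast
    positivity
  have hrpos : 0 < r := by exact_mod_cast hrR
  have hgap : 0 < 1 / (1 + δ / 2) - 1 / (1 + δ) := by
    rw [sub_pos]
    apply one_div_lt_one_div_of_lt <;> linarith
  obtain ⟨e, he⟩ : ∃ e : ℕ, ((m : ℝ) * N) / 2 ^ e ≤ 1 / (1 + δ / 2) - 1 / (1 + δ) := by
    obtain ⟨e, he⟩ := pow_unbounded_of_one_lt (((m : ℝ) * N) / (1 / (1 + δ / 2) - 1 / (1 + δ)))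
      (by norm_num : (1 : ℝ) < 2)
    refine ⟨e, ?_⟩
    rw [div_le_iff₀ (by positivity)]
    rw [div_lt_iff₀ hgap] at he
    linarith [mul_comm ((2 : ℝ) ^ e) (1 / (1 + δ / 2) - 1 / (1 + δ))]
  set j := d * (2 ^ e - 1) / r + 1 with hjdef
  have hj : d * (2 ^ e - 1) < j * r := by
    have h2 := Nat.div_add_mod (d * (2 ^ e - 1)) r
    have h3 := Nat.mod_lt (d * (2 ^ e - 1)) hrpos
    rw [hjdef, Nat.add_mul, one_mul, mul_comm (d * (2 ^ e - 1) / r) r]
    omega
  have hj1 : 1 ≤ j := by rw [hjdef]; exact Nat.le_add_left 1 _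
  have hjle : (j : ℝ) ≤ d * 2 ^ e / r + 1 := by
    rw [hjdef]
    push_cast
    have h1 : ((d * (2 ^ e - 1) / r : ℕ) : ℝ) ≤ ((d * (2 ^ e - 1) : ℕ) : ℝ) / r := Nat.cast_div_le
    have h2 : ((d * (2 ^ e - 1) : ℕ) : ℝ) ≤ d * 2 ^ e := by
      have : d * (2 ^ e - 1) ≤ d * 2 ^ e := Nat.mul_le_mul_left _ (Nat.sub_le _ _)
      exact_mod_cast this
    have h3 : ((d * (2 ^ e - 1) : ℕ) : ℝ) / r ≤ d * 2 ^ e / r := by gcongr
    linarith
  obtain ⟨v, hv0, hv⟩ := hcore d hd (S m) t r j e (Finset.card_pos.1 (by omega)) hj1 htr hj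
    ((m : ℝ) • K) (hconv.smul _) (fun a ha => (hS m hm1 a).1 ha)
  obtain ⟨y, ⟨x, hx, rfl⟩, hxy⟩ := hv
  set s : ℝ := (j : ℝ) * N * m / 2 ^ e with hs
  have h2e : (0 : ℝ) < 2 ^ e := by positivity
  have hvs : rZ v = s • (x - κ) := by
    funext i
    have hi := congrFun hxy i
    simp only [Pi.smul_apply, smul_eq_mul, rZ, Pi.add_apply, Finset.sum_apply] at hi
    push_cast at hi
    simp only [rZ, Pi.smul_apply, Pi.sub_apply, smul_eq_mul, hκdef, hs]
    have hmN : (m : ℝ) * N ≠ 0 := by positivity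
    have key : (2 : ℝ) ^ e * (v i : ℝ) = (j : ℝ) * N * m * (x i) - j * ∑ a ∈ S m, (a i : ℝ) := by
      linarith
    have : (v i : ℝ) = ((j : ℝ) * N * m * (x i) - j * ∑ a ∈ S m, (a i : ℝ)) / 2 ^ e := by
      rw [eq_div_iff h2e.ne']
      linarith
    rw [this]
    field_simp
  have hs0 : 0 ≤ s := by positivity
  have hs1 : s * (1 + δ / 2) ≤ 1 := by
    have h1 : s ≤ 1 / (1 + δ / 2) := by
      have hmN0 : (0 : ℝ) < N * m := by positivity
      have hA : s ≤ (d * 2 ^ e / r + 1) * (N * m) / 2 ^ e := by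
        rw [hs, mul_assoc]
        gcongr
      have hB : (d * 2 ^ e / r + 1) * ((N : ℝ) * m) / 2 ^ e = d * (N * m) / r + (m * N) / 2 ^ e := by
        field_simp
      have hC : d * ((N : ℝ) * m) / r ≤ 1 / (1 + δ) := by
        rw [div_le_div_iff₀ hrR (by positivity)]
        push_cast at hr
        nlinarith
      linarith
    calc s * (1 + δ / 2) ≤ 1 / (1 + δ / 2) * (1 + δ / 2) := by gcongr
      _ = 1 := by field_simp
  have hint : rZ v ∈ interior K := by
    rw [hvs]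
    exact hgeo' κ hκm s hs0 hs1 x hx
  exact hv0 (hlat v hint)

end H681EH
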