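import Pool.Agent.H681R3.EH.Stm

set_option autoImplicit false

noncomputable section

open MvPolynomial

namespace H681EH

theorem FROB_two {R : Type*} [CommRing R] [Algebra (ZMod 2) R] (x : R) : x + x = 0 := by
  have h1 : (2 : ZMod 2) = 0 := by decide
  have h2 : (2 : R) = 0 := by
    have h3 : algebraMap (ZMod 2) R 2 = algebraMap (ZMod 2) R 0 := congrArg _ h1
    rwa [map_ofNat, map_zero] at h3
  rw [← two_mul, h2, zero_mul]

theorem FROB_TT (d : ℕ) (f : Poly d) : T d (T d f) = f := by
  have h : (T d).comp (T d) = AlgHom.id (ZMod 2) (Poly d) := by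
    apply MvPolynomial.algHom_ext
    intro i
    rw [AlgHom.comp_apply, AlgHom.id_apply]
    unfold T
    rw [aeval_X, map_add, aeval_X, map_one, add_assoc, FROB_two, add_zero]
  have := congrArg (fun g => g f) h
  simpa using this

/-- class of an exponent -/
def FROB_cls (d q : ℕ) (b : Fin d →₀ ℕ) : Fin d → ZMod q := fun i => (b i : ZMod q)

/-- reduction of the exponents modulo `q` -/
def FROB_pi (d q : ℕ) : Poly d →ₐ[ZMod 2] AddMonoidAlgebra (ZMod 2) (Fin d → ZMod q) :=
  aeval (fun i => AddMonoidAlgebra.single (Pi.single i 1) 1)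

theorem FROB_pi_monomial (d q : ℕ) (b : Fin d →₀ ℕ) (a : ZMod 2) :
    FROB_pi d q (monomial b a) = AddMonoidAlgebra.single (FROB_cls d q b) a := by
  have h1 : ∀ b : Fin d →₀ ℕ, FROB_pi d q (monomial b 1) =
      AddMonoidAlgebra.single (FROB_cls d q b) 1 := by
    intro b
    induction b using Finsupp.induction_linear with
    | zero =>
      have h0 : FROB_cls d q 0 = 0 := by
        funext i
        simp [FROB_cls]
      rw [h0, monomial_zero', map_one, map_one]
      rfl
    | add b b' h h' =>
      have h0 : FROB_cls d q (b + b') = FROB_cls d q b + FROB_cls d q b' := by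
        funext i
        simp [FROB_cls]
      have h2 : (monomial (b + b') 1 : Poly d) = monomial b 1 * monomial b' 1 := by
        rw [monomial_mul, one_mul]
      rw [h2, map_mul, h, h', AddMonoidAlgebra.single_mul_single, h0, one_mul]
    | single i n =>
      have h0 : FROB_cls d q (Finsupp.single i n) = n • (Pi.single i 1 : Fin d → ZMod q) := by
        funext j
        by_cases hj : j = i
        · subst hj
          simp [FROB_cls]
        · simp [FROB_cls, hj]
      rw [← X_pow_eq_monomial, map_pow, h0]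
      unfold FROB_pi
      rw [aeval_X, AddMonoidAlgebra.single_pow, one_pow]
  have h2 : (monomial b a : Poly d) = a • monomial b 1 := by
    rw [smul_monomial, smul_eq_mul, mul_one]
  rw [h2, map_smul, h1, AddMonoidAlgebra.smul_single, smul_eq_mul, mul_one]

theorem FROB_pi_pow (d e : ℕ) (i : Fin d) :
    FROB_pi d (2 ^ e) ((X i + 1) ^ (2 ^ e)) = 0 := by
  rw [add_pow_char_pow, one_pow, map_add, map_pow, map_one]
  have h1 : FROB_pi d (2 ^ e) (X i) ^ (2 ^ e) = 1 := by
    unfold FROB_pi
    rw [aeval_X, AddMonoidAlgebra.single_pow, one_pow]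
    have h0 : (2 ^ e) • (Pi.single i 1 : Fin d → ZMod (2 ^ e)) = 0 := by
      funext j
      simp only [Pi.smul_apply, Pi.zero_apply, nsmul_eq_mul]
      rw [ZMod.natCast_self, zero_mul]
    rw [h0]
    rfl
  rw [h1]
  exact FROB_two 1

theorem FROB_pi_zero (d e : ℕ) (f : Poly d) (hf : Ord f (d * (2 ^ e - 1) + 1)) :
    FROB_pi d (2 ^ e) f = 0 := by
  have h1 : f = ∑ β ∈ (T d f).support, coeff β (T d f) • ∏ i, (X i + 1 : Poly d) ^ β i := by
    conv_lhs => rw [← FROB_TT d f, (T d f).as_sum, map_sum]
    refine Finset.sum_congr rfl fun β _ => ?_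
    unfold T
    rw [aeval_monomial, Finsupp.prod_fintype _ _ (fun i => pow_zero _), Algebra.smul_def]
  rw [h1, map_sum]
  refine Finset.sum_eq_zero fun β hβ => ?_
  have h2 : d * (2 ^ e - 1) + 1 ≤ β.degree := by
    by_contra h
    exact (mem_support_iff.mp hβ) (hf β (by omega))
  have h3 : ∃ i, 2 ^ e ≤ β i := by
    by_contra h
    push Not at h
    have h4 : β.degree ≤ ∑ _i : Fin d, (2 ^ e - 1) := by
      rw [Finsupp.degree_eq_sum]
      exact Finset.sum_le_sum fun i _ => by have := h i; omega
    rw [Finset.sum_const, Finset.card_univ, Fintype.card_fin, smul_eq_mul] at h4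
    omega
  obtain ⟨i, hi⟩ := h3
  rw [map_smul, map_prod, Finset.prod_eq_zero (Finset.mem_univ i), smul_zero]
  obtain ⟨r, hr⟩ := Nat.exists_eq_add_of_le hi
  rw [hr, pow_add, map_mul, FROB_pi_pow, zero_mul]

theorem FROB : S_FROB := by
  classical
  intro d e f hf b₀ hb₀
  have h1 := FROB_pi_zero d e f hf
  rw [f.as_sum, map_sum] at h1
  simp only [FROB_pi_monomial] at h1
  have h2 := congrArg (fun x => x.coeff (FROB_cls d (2 ^ e) b₀)) h1
  simp only [AddMonoidAlgebra.coeff_sum, AddMonoidAlgebra.coeff_zero, Finsupp.coe_finsetSum,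
    Finset.sum_apply, AddMonoidAlgebra.coeff_single, Finsupp.coe_zero, Pi.zero_apply] at h2
  by_contra hcon
  push Not at hcon
  rw [Finset.sum_eq_single_of_mem b₀ hb₀] at h2
  · rw [Finsupp.single_eq_same] at h2
    exact (mem_support_iff.mp hb₀) h2
  · intro b hb hne
    obtain ⟨i, hi⟩ := hcon b hb hne
    rw [Finsupp.single_apply, if_neg]
    intro h
    apply hi
    have h3 := congrFun h i
    exact (ZMod.natCast_eq_natCast_iff _ _ _).mp h3

end H681EH
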