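import Pool.Agent.H681R3.EH.Stm

set_option autoImplicit false

noncomputable section

open MvPolynomial MeasureTheory Filter Topology
open scoped BigOperators Pointwise ENNReal Matrix

namespace H681EH

theorem GEO : S_GEO := by
  intro d K hK h0 δ hδ
  obtain ⟨ρ, hρ, hball⟩ := Metric.isOpen_iff.mp isOpen_interior 0 h0
  refine ⟨δ * ρ / 2, by positivity, ?_⟩
  intro κ hκ s hs0 hs1 x hx
  have hy1 : (-(1 / δ)) • κ ∈ interior K := by
    apply hball
    rw [mem_ball_zero_iff, norm_smul, norm_neg, Real.norm_of_nonneg (by positivity)]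
    calc 1 / δ * ‖κ‖ ≤ 1 / δ * (δ * ρ / 2) := mul_le_mul_of_nonneg_left hκ (by positivity)
      _ = ρ / 2 := by field_simp
      _ < ρ := by linarith
  have hy := hK.combo_self_interior_mem_interior hx hy1 (a := 1 / (1 + δ)) (b := δ / (1 + δ))
    (by positivity) (by positivity) (by field_simp)
  have h := hK.interior.smul_mem_of_zero_mem h0 hy (t := s * (1 + δ)) ⟨by positivity, hs1⟩
  have he : (s * (1 + δ)) • ((1 / (1 + δ)) • x + (δ / (1 + δ)) • (-(1 / δ)) • κ) = s • (x - κ) := by
    funext i
    simp only [Pi.smul_apply, Pi.add_apply, Pi.sub_apply, smul_eq_mul]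
    field_simp
    ring
  rwa [he] at h

end H681EH
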