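import Mathlib

/-!
EHRHART'S VOLUME CONJECTURE (1955), MP_4c844b_co: statements of all the tasks as `Prop`s.
Task `X` proves `theorem X : S_X` (or `theorem X (h : S_Y) ... : S_X`) in
`Pool/Agent/H681R3/EH/X.lean`, importing this file only.
-/

set_option autoImplicit false

noncomputable section

open MvPolynomial MeasureTheory Filter Topology
open scoped BigOperators Pointwise ENNReal Matrix

namespace H681EH

/-- polynomials in `d` variables over the field with two elements -/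
abbrev Poly (d : ℕ) := MvPolynomial (Fin d) (ZMod 2)

/-- the substitution `X_i ↦ X_i + 1` (an involution in characteristic 2) -/
def T (d : ℕ) : Poly d →ₐ[ZMod 2] Poly d := aeval (fun i => X i + 1)

/-- `f` vanishes to order at least `k` at the point `(1, ..., 1)` -/
def Ord {d : ℕ} (f : Poly d) (k : ℕ) : Prop :=
  ∀ β : Fin d →₀ ℕ, β.degree < k → coeff β (T d f) = 0

/-- the real point with the same coordinates -/
def rN {d : ℕ} (b : Fin d →₀ ℕ) : Fin d → ℝ := fun i => (b i : ℝ)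

/-- the real point with the same coordinates -/
def rZ {d : ℕ} (b : Fin d → ℤ) : Fin d → ℝ := fun i => (b i : ℝ)

/-- the support of `f` is contained in `L • C` -/
def Supp {d : ℕ} (C : Set (Fin d → ℝ)) (L : ℕ) (f : Poly d) : Prop :=
  ∀ b ∈ f.support, rN b ∈ (L : ℝ) • C

/-- ORD: basic properties of the order at `(1,...,1)` -/
def S_ORD : Prop :=
  (∀ (d : ℕ) (f : Poly d), Ord f 0) ∧
  (∀ (d : ℕ) (f : Poly d) (k l : ℕ), l ≤ k → Ord f k → Ord f l) ∧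
  (∀ (d : ℕ) (f g : Poly d) (k l : ℕ), Ord f k → Ord g l → Ord (f * g) (k + l)) ∧
  (∀ (d : ℕ) (f : Poly d) (k j : ℕ), Ord f k → Ord (f ^ j) (j * k)) ∧
  (∀ (d : ℕ) (ι : Type) (s : Finset ι) (f : ι → Poly d) (k : ι → ℕ),
    (∀ a ∈ s, Ord (f a) (k a)) → Ord (∏ a ∈ s, f a) (∑ a ∈ s, k a))

/-- FROB: a polynomial vanishing to order `> d(2^e-1)` at `(1,...,1)` has, with every exponent of
its support, a second one congruent to it modulo `2^e`. -/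
def S_FROB : Prop :=
  ∀ (d e : ℕ) (f : Poly d), Ord f (d * (2 ^ e - 1) + 1) → ∀ b₀ ∈ f.support,
    ∃ b ∈ f.support, b ≠ b₀ ∧ ∀ i, b i ≡ b₀ i [MOD 2 ^ e]

/-- LM: number of leading exponents of the polynomials supported in `S` with order `≥ k`. -/
def S_LM : Prop :=
  ∀ (d : ℕ), 1 ≤ d → ∀ (S : Finset (Fin d →₀ ℕ)) (k : ℕ),
    ∃ L ⊆ S, S.card ≤ L.card + (d + k - 1).choose d ∧
      ∀ a ∈ L, ∃ f : Poly d, f ≠ 0 ∧ f.support ⊆ S ∧ Ord f k ∧ MonomialOrder.lex.degree f = a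

/-- BAS: a compatible basis: polynomials `f_a` (`a ∈ S`) supported in `S` with leading exponent `a`
and large total order at `(1,...,1)`. USES LM, ORD. -/
def S_BAS : Prop :=
  ∀ (d : ℕ), 1 ≤ d → ∀ (S : Finset (Fin d →₀ ℕ)) (t : ℕ),
    ∃ (f : (Fin d →₀ ℕ) → Poly d) (k : (Fin d →₀ ℕ) → ℕ),
      (∀ a ∈ S, f a ≠ 0 ∧ (f a).support ⊆ S ∧ Ord (f a) (k a) ∧
        MonomialOrder.lex.degree (f a) = a) ∧
      t * S.card ≤ (∑ a ∈ S, k a) + (d + t).choose (d + 1)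

/-- SUP: supports of products. -/
def S_SUP : Prop :=
  ∀ (d : ℕ) (C : Set (Fin d → ℝ)), Convex ℝ C →
  (∀ (f g : Poly d) (k l : ℕ), Supp C k f → Supp C l g → Supp C (k + l) (f * g)) ∧
  (∀ (f : Poly d) (k j : ℕ), 1 ≤ j → Supp C k f → Supp C (j * k) (f ^ j)) ∧
  (∀ (ι : Type) (s : Finset ι) (f : ι → Poly d), s.Nonempty →
    (∀ a ∈ s, Supp C 1 (f a)) → Supp C s.card (∏ a ∈ s, f a))

/-- CORE: the combinatorial theorem. USES BAS, SUP, ORD, FROB. -/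
def S_CORE : Prop :=
  ∀ (d : ℕ), 1 ≤ d → ∀ (S : Finset (Fin d →₀ ℕ)) (t r j e : ℕ), S.Nonempty → 1 ≤ j →
    r + (d + t).choose (d + 1) ≤ t * S.card → d * (2 ^ e - 1) < j * r →
    ∀ C : Set (Fin d → ℝ), Convex ℝ C → (∀ a ∈ S, rN a ∈ C) →
    ∃ b : Fin d →₀ ℕ, b ≠ j • ∑ a ∈ S, a ∧ (∀ i, b i ≡ (j • ∑ a ∈ S, a) i [MOD 2 ^ e]) ∧
      rN b ∈ ((j * S.card : ℕ) : ℝ) • C

/-- COREZ: the same for finite subsets of `ℤ^d` (translation). USES CORE. -/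
def S_COREZ : Prop :=
  ∀ (d : ℕ), 1 ≤ d → ∀ (S : Finset (Fin d → ℤ)) (t r j e : ℕ), S.Nonempty → 1 ≤ j →
    r + (d + t).choose (d + 1) ≤ t * S.card → d * (2 ^ e - 1) < j * r →
    ∀ C : Set (Fin d → ℝ), Convex ℝ C → (∀ a ∈ S, rZ a ∈ C) →
    ∃ v : Fin d → ℤ, v ≠ 0 ∧
      rZ ((2 ^ e : ℤ) • v + (j : ℤ) • ∑ a ∈ S, a) ∈ ((j * S.card : ℕ) : ℝ) • C

/-- COUNT: lattice points of `m K` and their first moments. -/
def S_COUNT : Prop :=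
  ∀ (d : ℕ), 1 ≤ d → ∀ K : Set (Fin d → ℝ), Convex ℝ K → IsCompact K → (interior K).Nonempty →
    ∃ S : ℕ → Finset (Fin d → ℤ), (∀ m : ℕ, 1 ≤ m → ∀ a, a ∈ S m ↔ rZ a ∈ (m : ℝ) • K) ∧
      Tendsto (fun m : ℕ => ((S m).card : ℝ) / (m : ℝ) ^ d) atTop (𝓝 (volume K).toReal) ∧
      ∀ i, Tendsto (fun m : ℕ => (∑ a ∈ S m, (a i : ℝ)) / (m : ℝ) ^ (d + 1)) atTop
        (𝓝 (∫ x in K, x i))

/-- LIM: real analysis, choice of `t` and `r`. `V > (d+1)^d/d!`, `N_m/m^d → V`. -/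
def S_LIM : Prop :=
  ∀ (d : ℕ), 1 ≤ d → ∀ (V : ℝ), ((d : ℝ) + 1) ^ d / d.factorial < V →
    ∀ N : ℕ → ℕ, Tendsto (fun m : ℕ => (N m : ℝ) / (m : ℝ) ^ d) atTop (𝓝 V) →
    ∃ δ : ℝ, 0 < δ ∧ ∀ᶠ m : ℕ in atTop, 1 ≤ m ∧ 1 ≤ N m ∧ ∃ t r : ℕ,
      r + (d + t).choose (d + 1) ≤ t * N m ∧ (d : ℝ) * (1 + δ) * (m * N m : ℕ) ≤ r

/-- GEO: convex geometry of the last step. If `0 ∈ int K`, `0 < δ`, then for all small `κ` and all
`0 ≤ s ≤ 1/(1+δ)`, every point of `s • (K - κ)` is in the interior of `K`. -/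
def S_GEO : Prop :=
  ∀ (d : ℕ) (K : Set (Fin d → ℝ)), Convex ℝ K → (0 : Fin d → ℝ) ∈ interior K →
    ∀ δ : ℝ, 0 < δ → ∃ ε : ℝ, 0 < ε ∧ ∀ κ : Fin d → ℝ, ‖κ‖ ≤ ε → ∀ s : ℝ, 0 ≤ s →
      s * (1 + δ) ≤ 1 → ∀ x ∈ K, s • (x - κ) ∈ interior K

/-- EHZ: the conjecture for the lattice `ℤ^d`. USES COREZ, COUNT, LIM, GEO. -/
def S_EHZ : Prop :=
  ∀ (d : ℕ), 1 ≤ d → ∀ K : Set (Fin d → ℝ), Convex ℝ K → IsCompact K →
    (0 : Fin d → ℝ) ∈ interior K → (∀ i, ∫ x in K, x i = 0) →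
    (∀ a : Fin d → ℤ, rZ a ∈ interior K → a = 0) →
    (volume K).toReal ≤ ((d : ℝ) + 1) ^ d / d.factorial

/-- RES: the conjecture for all lattices. USES EHZ. -/
def S_RES : Prop :=
  ∀ (d : ℕ), 1 ≤ d → ∀ A : Matrix (Fin d) (Fin d) ℝ, A.det ≠ 0 →
    ∀ K : Set (Fin d → ℝ), Convex ℝ K → IsCompact K → (interior K).Nonempty →
    ∫ x in K, x = 0 →
    interior K ∩ Set.range (fun a : Fin d → ℤ => A *ᵥ rZ a) = {0} →
    volume K ≤ ENNReal.ofReal (((d : ℝ) + 1) ^ d / d.factorial * |A.det|)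

end H681EH
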