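import Mathlib
import Pool.Agent.H681R3.EH.Stm

set_option autoImplicit false

/-! Task LIM: real analysis, choice of `t` and `r`. -/

noncomputable section

open Filter Topology

namespace H681EH

theorem LIM : S_LIM := by
  intro d hd V hV N hN
  have hd0 : (0 : ℝ) < d := by exact_mod_cast hd
  have hfac : (0 : ℝ) < (d.factorial : ℝ) := by exact_mod_cast d.factorial_pos
  have hV0 : 0 < V := lt_trans (by positivity) hV
  obtain ⟨x, hx⟩ : ∃ x : ℝ, x = ((d.factorial : ℝ) * V) ^ ((d : ℝ)⁻¹) := ⟨_, rfl⟩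
  have hx0 : 0 < x := by rw [hx]; positivity
  have hxd : x ^ d = (d.factorial : ℝ) * V := by
    rw [hx]
    exact Real.rpow_inv_natCast_pow (by positivity) (by omega)
  have hx1 : (d : ℝ) + 1 < x := by
    by_contra hcon
    push Not at hcon
    have h1 : x ^ d ≤ ((d : ℝ) + 1) ^ d := pow_le_pow_left₀ hx0.le hcon d
    rw [div_lt_iff₀ hfac] at hV
    rw [hxd] at h1
    linarith
  obtain ⟨y, hy⟩ : ∃ y : ℝ, y = x / ((d : ℝ) + 1) := ⟨_, rfl⟩
  have hy1 : 1 < y := by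
    rw [hy, one_lt_div (by positivity)]
    exact hx1
  have hdy : (d : ℝ) * y = x - y := by
    rw [hy]
    field_simp
    ring
  refine ⟨(y - 1) / 2, by linarith, ?_⟩
  -- the limit
  have hm : Tendsto (fun m : ℕ => (m : ℝ)) atTop atTop := tendsto_natCast_atTop_atTop
  have ht : Tendsto (fun m : ℕ => ((⌊x * (m : ℝ)⌋₊ : ℕ) : ℝ) / (m : ℝ)) atTop (𝓝 x) :=
    (tendsto_nat_floor_mul_div_atTop hx0.le).comp hm
  have hdm : Tendsto (fun m : ℕ => (d : ℝ) / (m : ℝ)) atTop (𝓝 0) :=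
    hm.const_div_atTop d
  have hdt : Tendsto (fun m : ℕ => ((d : ℝ) / (m : ℝ) + ((⌊x * (m : ℝ)⌋₊ : ℕ) : ℝ) / (m : ℝ)))
      atTop (𝓝 x) := by
    have := hdm.add ht
    rwa [zero_add] at this
  have hfac1 : (0 : ℝ) < ((d + 1).factorial : ℝ) := by exact_mod_cast (d + 1).factorial_pos
  have hg : Tendsto (fun m : ℕ => ((⌊x * (m : ℝ)⌋₊ : ℕ) : ℝ) / (m : ℝ) -
      ((d : ℝ) / (m : ℝ) + ((⌊x * (m : ℝ)⌋₊ : ℕ) : ℝ) / (m : ℝ)) ^ (d + 1) /
        (((d + 1).factorial : ℝ) * ((N m : ℝ) / (m : ℝ) ^ d))) atTop (𝓝 ((d : ℝ) * y)) := by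
    have h1 := ht.sub ((hdt.pow (d + 1)).div (hN.const_mul ((d + 1).factorial : ℝ))
      (by positivity))
    have h2 : x - x ^ (d + 1) / (((d + 1).factorial : ℝ) * V) = (d : ℝ) * y := by
      rw [hdy, pow_succ, hxd, Nat.factorial_succ, hy]
      push_cast
      field_simp
    rw [h2] at h1
    exact h1
  have hlt : (d : ℝ) * (1 + (y - 1) / 2) < (d : ℝ) * y := by
    have : 1 + (y - 1) / 2 < y := by linarith
    exact mul_lt_mul_of_pos_left this hd0
  have hNpos : ∀ᶠ m : ℕ in atTop, 0 < (N m : ℝ) / (m : ℝ) ^ d := hN.eventually (lt_mem_nhds hV0)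
  filter_upwards [hg.eventually (lt_mem_nhds hlt), hNpos, eventually_ge_atTop 1] with m h1 h2 h3
  have hm0 : (0 : ℝ) < m := by exact_mod_cast h3
  have hNm : (0 : ℝ) < N m := by
    by_contra hcon
    have h4 : (N m : ℝ) = 0 := le_antisymm (not_lt.1 hcon) (Nat.cast_nonneg _)
    rw [h4, zero_div] at h2
    exact lt_irrefl _ h2
  refine ⟨h3, by exact_mod_cast hNm, ⌊x * (m : ℝ)⌋₊,
    ⌊x * (m : ℝ)⌋₊ * N m - (d + ⌊x * (m : ℝ)⌋₊).choose (d + 1), ?_⟩
  obtain ⟨t, htdef⟩ : ∃ t : ℕ, t = ⌊x * (m : ℝ)⌋₊ := ⟨_, rfl⟩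
  rw [← htdef] at h1 ⊢
  have hch : ((d + t).choose (d + 1) : ℝ) ≤ ((d : ℝ) + t) ^ (d + 1) / ((d + 1).factorial : ℝ) := by
    have := Nat.choose_le_pow_div (α := ℝ) (d + 1) (d + t)
    push_cast at this ⊢
    exact this
  have hkey : (d : ℝ) * (1 + (y - 1) / 2) * (m * N m) <
      t * N m - ((d : ℝ) + t) ^ (d + 1) / ((d + 1).factorial : ℝ) := by
    have h5 := mul_lt_mul_of_pos_right h1 (mul_pos hm0 hNm)
    refine h5.trans_le (le_of_eq ?_)
    rw [sub_mul]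
    congr 1
    · field_simp
    · have h6 : (d : ℝ) / m + (t : ℝ) / m = ((d : ℝ) + t) / m := by ring
      rw [h6, div_pow]
      field_simp
      ring
  have hge : (d + t).choose (d + 1) ≤ t * N m := by
    have h7 : ((d + t).choose (d + 1) : ℝ) ≤ (t * N m : ℕ) := by
      push_cast
      have h8 : 0 ≤ (d : ℝ) * (1 + (y - 1) / 2) * (m * N m) := by
        have : 0 < 1 + (y - 1) / 2 := by linarith
        positivity
      linarith
    exact_mod_cast h7
  refine ⟨by omega, ?_⟩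
  rw [Nat.cast_sub hge]
  push_cast
  linarith

end H681EH
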