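import Pool.Agent.H681R3.EH.Stm

set_option autoImplicit false

noncomputable section

open MvPolynomial MeasureTheory Filter Topology
open scoped BigOperators Pointwise ENNReal Matrix

namespace H681EH

/-- the exponents of degree less than `k` -/
def lowDeg (d k : ℕ) : Finset (Fin d →₀ ℕ) :=
  (Finset.range k).biUnion (fun n => Finset.finsuppAntidiag Finset.univ n)

theorem mem_lowDeg {d k : ℕ} (β : Fin d →₀ ℕ) : β ∈ lowDeg d k ↔ β.degree < k := by
  simp [lowDeg, Finsupp.degree_eq_sum]

theorem card_lowDeg {d k : ℕ} (hd : 1 ≤ d) : (lowDeg d k).card ≤ (d + k - 1).choose d := by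
  classical
  rcases Nat.eq_zero_or_pos k with rfl | hk
  · simp [lowDeg]
  · obtain ⟨n, rfl⟩ : ∃ n, k = n + 1 := ⟨k - 1, by omega⟩
    have h1 : (lowDeg d (n + 1)).card ≤ ∑ i ∈ Finset.range (n + 1), d.multichoose i := by
      refine (Finset.card_biUnion_le).trans (le_of_eq ?_)
      refine Finset.sum_congr rfl (fun i _ => ?_)
      rw [Finset.card_finsuppAntidiag_nat_eq_multichoose]
      simp
    rw [Nat.sum_range_multichoose] at h1
    have h2 : d + (n + 1) - 1 = n + d := by omega
    rw [h2]
    exact h1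

/-- the polynomial with given coefficients on `S` -/
def polyOf {d : ℕ} (S : Finset (Fin d →₀ ℕ)) : (S → ZMod 2) →ₗ[ZMod 2] Poly d :=
  ∑ a : S, (MvPolynomial.monomial (a : Fin d →₀ ℕ)) ∘ₗ LinearMap.proj a

theorem coeff_polyOf {d : ℕ} (S : Finset (Fin d →₀ ℕ)) (c : S → ZMod 2) (b : Fin d →₀ ℕ) :
    coeff b (polyOf S c) = if h : b ∈ S then c ⟨b, h⟩ else 0 := by
  classical
  have h0 : coeff b (polyOf S c) = ∑ a : S, (if (a : Fin d →₀ ℕ) = b then c a else 0) := by
    simp only [polyOf, LinearMap.sum_apply, LinearMap.comp_apply, LinearMap.proj_apply]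
    rw [MvPolynomial.coeff_sum]
    refine Finset.sum_congr rfl (fun a _ => ?_)
    rw [MvPolynomial.coeff_monomial]
  rw [h0]
  split_ifs with h
  · rw [Finset.sum_eq_single (⟨b, h⟩ : S)]
    · simp
    · intro a _ ha
      rw [if_neg]
      intro hab
      exact ha (Subtype.ext hab)
    · intro hn
      exact absurd (Finset.mem_univ _) hn
  · refine Finset.sum_eq_zero (fun a _ => ?_)
    rw [if_neg]
    intro hab
    exact h (hab ▸ a.2)

theorem LM : S_LM := by
  classical
  intro d hd S k
  let L : Finset (Fin d →₀ ℕ) := S.filter (fun a =>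
    ∃ f : Poly d, f ≠ 0 ∧ f.support ⊆ S ∧ Ord f k ∧ MonomialOrder.lex.degree f = a)
  refine ⟨L, Finset.filter_subset _ _, ?_, ?_⟩
  · by_contra hcon
    push Not at hcon
    -- the linear map
    let Φ : (S → ZMod 2) →ₗ[ZMod 2] ((L → ZMod 2) × (lowDeg d k → ZMod 2)) :=
      LinearMap.prod
        (LinearMap.pi (fun a : L => (MvPolynomial.lcoeff (ZMod 2) (a : Fin d →₀ ℕ)) ∘ₗ polyOf S))
        (LinearMap.pi (fun β : lowDeg d k =>
          (MvPolynomial.lcoeff (ZMod 2) (β : Fin d →₀ ℕ)) ∘ₗ (T d).toLinearMap ∘ₗ polyOf S))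
    have hrank : Module.finrank (ZMod 2) ((L → ZMod 2) × (lowDeg d k → ZMod 2)) <
        Module.finrank (ZMod 2) (S → ZMod 2) := by
      rw [Module.finrank_prod, Module.finrank_fintype_fun_eq_card,
        Module.finrank_fintype_fun_eq_card, Module.finrank_fintype_fun_eq_card,
        Fintype.card_coe, Fintype.card_coe, Fintype.card_coe]
      have := card_lowDeg (d := d) (k := k) hd
      omega
    have hker : LinearMap.ker Φ ≠ ⊥ := LinearMap.ker_ne_bot_of_finrank_lt hrank
    obtain ⟨c, hc, hc0⟩ := (Submodule.ne_bot_iff _).mp hker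
    rw [LinearMap.mem_ker] at hc
    let f : Poly d := polyOf S c
    have hf0 : f ≠ 0 := by
      intro h
      apply hc0
      funext a
      have h1 : coeff (a : Fin d →₀ ℕ) f = 0 := by rw [h]; simp
      rw [coeff_polyOf] at h1
      simpa using h1
    have hfS : f.support ⊆ S := by
      intro b hb
      by_contra hbS
      rw [MvPolynomial.mem_support_iff, coeff_polyOf, dif_neg hbS] at hb
      exact hb rfl
    have hfk : Ord f k := by
      intro β hβ
      have h2 := congrArg Prod.snd hc
      have h3 := congrFun h2 ⟨β, (mem_lowDeg β).mpr hβ⟩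
      simpa [Φ] using h3
    have hdeg : MonomialOrder.lex.degree f ∈ f.support := by
      rw [MvPolynomial.mem_support_iff]
      exact MonomialOrder.leadingCoeff_ne_zero_iff.mpr hf0
    have hmem : MonomialOrder.lex.degree f ∈ L := by
      refine Finset.mem_filter.mpr ⟨hfS hdeg, f, hf0, hfS, hfk, rfl⟩
    have h4 := congrArg Prod.fst hc
    have h5 := congrFun h4 ⟨_, hmem⟩
    exact (MvPolynomial.mem_support_iff.mp hdeg) h5
  · intro a ha
    exact (Finset.mem_filter.mp ha).2

end H681EH
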