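import Pool.Agent.H681R3.EH.Stm

set_option autoImplicit false

noncomputable section

open MvPolynomial

namespace H681EH

theorem ORD_mul (d : ℕ) (f g : Poly d) (k l : ℕ) (hf : Ord f k) (hg : Ord g l) :
    Ord (f * g) (k + l) := by
  intro β hβ
  rw [map_mul, MvPolynomial.coeff_mul]
  refine Finset.sum_eq_zero fun p hp => ?_
  have h1 : p.1 + p.2 = β := Finset.HasAntidiagonal.mem_antidiagonal.mp hp
  have h2 : p.1.degree + p.2.degree < k + l := by
    rw [← map_add, h1]
    exact hβ
  rcases lt_or_ge p.1.degree k with h3 | h3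
  · rw [hf _ h3, zero_mul]
  · rw [hg _ (by omega), mul_zero]

theorem ORD : S_ORD := by
  classical
  refine ⟨?_, ?_, ORD_mul, ?_, ?_⟩
  · intro d f β hβ
    exact absurd hβ (Nat.not_lt_zero _)
  · intro d f k l hl hf β hβ
    exact hf β (hβ.trans_le hl)
  · intro d f k j hf
    induction j with
    | zero =>
      rw [zero_mul]
      intro β hβ
      exact absurd hβ (Nat.not_lt_zero _)
    | succ j ih =>
      rw [pow_succ, Nat.succ_mul]
      exact ORD_mul d _ _ _ _ ih hf
  · intro d ι s f k h
    induction s using Finset.induction_on with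
    | empty =>
      intro β hβ
      exact absurd hβ (Nat.not_lt_zero _)
    | insert a s ha ih =>
      rw [Finset.prod_insert ha, Finset.sum_insert ha]
      exact ORD_mul d _ _ _ _ (h a (Finset.mem_insert_self a s))
        (ih (fun b hb => h b (Finset.mem_insert_of_mem hb)))

end H681EH
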