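import Pool.Agent.H681R3.EH.Stm

set_option autoImplicit false

noncomputable section

open MvPolynomial MeasureTheory Filter Topology
open scoped BigOperators Pointwise ENNReal Matrix

namespace H681EH

theorem RES (hEHZ : S_EHZ) : S_RES := by
  classical
  intro d hd A hA K hK hKc hKi hKm hKl
  let f : (Fin d → ℝ) →ₗ[ℝ] (Fin d → ℝ) := Matrix.toLin' A
  have hf : LinearMap.det f = A.det := LinearMap.det_toLin' A
  have hf0 : LinearMap.det f ≠ 0 := by rw [hf]; exact hA
  let e : (Fin d → ℝ) ≃L[ℝ] (Fin d → ℝ) :=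
    (LinearMap.equivOfDetNeZero f hf0).toContinuousLinearEquiv
  have he : ∀ x, e x = A *ᵥ x := by
    intro x
    rfl
  have hef : ∀ x, e x = f x := fun x => rfl
  let K' : Set (Fin d → ℝ) := e ⁻¹' K
  have himg : e '' K' = K := Set.image_preimage_eq K e.surjective
  have hconv : Convex ℝ K' := hK.linear_preimage e.toLinearEquiv.toLinearMap
  have hcomp : IsCompact K' := e.toHomeomorph.isCompact_preimage.mpr hKc
  have hint : interior K' = e ⁻¹' interior K := (e.toHomeomorph.preimage_interior K).symm
  have h0K : (0 : Fin d → ℝ) ∈ interior K := by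
    have h1 : (0 : Fin d → ℝ) ∈ interior K ∩ Set.range (fun a : Fin d → ℤ => A *ᵥ rZ a) := by
      rw [hKl]; rfl
    exact h1.1
  have h0 : (0 : Fin d → ℝ) ∈ interior K' := by
    rw [hint]
    change e 0 ∈ interior K
    rw [map_zero]
    exact h0K
  have hlat : ∀ a : Fin d → ℤ, rZ a ∈ interior K' → a = 0 := by
    intro a ha
    rw [hint] at ha
    have h1 : A *ᵥ rZ a ∈ interior K ∩ Set.range (fun a : Fin d → ℤ => A *ᵥ rZ a) :=
      ⟨by rw [← he]; exact ha, ⟨a, rfl⟩⟩
    rw [hKl, Set.mem_singleton_iff] at h1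
    have h2 : e (rZ a) = 0 := by rw [he]; exact h1
    have h3 : rZ a = 0 := by
      have := e.injective (h2.trans (map_zero e).symm)
      exact this
    funext i
    have h4 := congrFun h3 i
    simp only [rZ, Pi.zero_apply] at h4
    exact_mod_cast h4
  have hdet : (e : (Fin d → ℝ) →L[ℝ] (Fin d → ℝ)).det = A.det := by
    rw [← hf]
    rfl
  have hmeas : MeasurableSet K' := hcomp.isClosed.measurableSet
  have hmom : ∀ i, ∫ x in K', x i = 0 := by
    intro i
    let l : (Fin d → ℝ) →L[ℝ] ℝ :=
      (ContinuousLinearMap.proj i).comp (e.symm : (Fin d → ℝ) →L[ℝ] (Fin d → ℝ))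
    have h1 : ∫ x in K, l x = 0 := by
      have h2 : Integrable (fun x : Fin d → ℝ => x) (volume.restrict K) :=
        (continuous_id.continuousOn).integrableOn_compact hKc
      rw [ContinuousLinearMap.integral_comp_comm l h2, hKm, map_zero]
    have h3 : ∫ x in e '' K', l x = ∫ x in K', |A.det| • l (e x) := by
      rw [← hdet]
      exact integral_image_eq_integral_abs_det_fderiv_smul volume hmeas
        (fun x _ => (e : (Fin d → ℝ) →L[ℝ] (Fin d → ℝ)).hasFDerivAt.hasFDerivWithinAt)
        e.injective.injOn (fun x => l x)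
    rw [himg, h1] at h3
    have h4 : ∀ x, l (e x) = x i := by
      intro x
      simp [l]
    simp only [h4] at h3
    rw [integral_smul] at h3
    have h5 : |A.det| ≠ 0 := abs_ne_zero.mpr hA
    have h6 := h3.symm
    rw [smul_eq_mul] at h6
    exact (mul_eq_zero.mp h6).resolve_left h5
  have hmain := hEHZ d hd K' hconv hcomp h0 hmom hlat
  have hvol : volume K = ENNReal.ofReal |A.det| * volume K' := by
    have h1 := MeasureTheory.Measure.addHaar_image_linearMap (volume : Measure (Fin d → ℝ)) f K'
    have h2 : f '' K' = K := himg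
    rw [h2, hf] at h1
    exact h1
  have hfin : volume K' ≠ ⊤ := hcomp.measure_lt_top.ne
  have h7 : volume K' ≤ ENNReal.ofReal (((d : ℝ) + 1) ^ d / d.factorial) := by
    rw [← ENNReal.ofReal_toReal hfin]
    exact ENNReal.ofReal_le_ofReal hmain
  rw [hvol, mul_comm (((d : ℝ) + 1) ^ d / d.factorial) |A.det|,
    ENNReal.ofReal_mul (abs_nonneg _)]
  exact mul_le_mul_right h7 _

end H681EH
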