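import Pool.Agent.H681R3.EH.Stm

set_option autoImplicit false

noncomputable section

open MvPolynomial MeasureTheory Filter Topology
open scoped BigOperators Pointwise ENNReal Matrix

namespace H681EH

theorem rN_add' {d : ℕ} (a b : Fin d →₀ ℕ) : rN (a + b) = rN a + rN b := by
  funext i
  simp [rN]

theorem supp_mul {d : ℕ} {C : Set (Fin d → ℝ)} (hC : Convex ℝ C) (f g : Poly d) (k l : ℕ)
    (hf : Supp C k f) (hg : Supp C l g) : Supp C (k + l) (f * g) := by
  classical
  intro b hb
  have h := MvPolynomial.support_mul f g hb
  obtain ⟨x, hx, y, hy, rfl⟩ := Finset.mem_add.mp h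
  rw [rN_add']
  push_cast
  rw [hC.add_smul (Nat.cast_nonneg k) (Nat.cast_nonneg l)]
  exact Set.add_mem_add (hf x hx) (hg y hy)

theorem SUP : S_SUP := by
  intro d C hC
  refine ⟨fun f g k l hf hg => supp_mul hC f g k l hf hg, ?_, ?_⟩
  · intro f k j hj hf
    induction j, hj using Nat.le_induction with
    | base => simpa using hf
    | succ n hn ih =>
      rw [pow_succ, Nat.add_mul, one_mul]
      exact supp_mul hC _ _ _ _ ih hf
  · intro ι s f hs
    classical
    induction hs using Finset.Nonempty.cons_induction with
    | singleton a =>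
      intro h
      simpa using h a (by simp)
    | cons a s ha hs ih =>
      intro h
      rw [Finset.prod_cons, Finset.card_cons, Nat.add_comm]
      refine supp_mul hC _ _ _ _ (h a (by simp)) (ih ?_)
      intro x hx
      exact h x (by simp [hx])

end H681EH
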